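import Mathlib
import Pool.Agent.P.MP_192724_nt.Top

namespace Pool.Agent.Results.MP_192724_nt.PolylogDensity

open Pool.Agent.P.MP_192724_nt

/-- For every nonzero integer `d` and all large `X`, at least `X / (log X) ^ 455` integers
`1 ≤ n ≤ X` have `n ^ 2 + d > 0` and Liouville value `λ (n ^ 2 + d) = -1`. -/
theorem result :
    ∀ d : ℤ, d ≠ 0 → ∃ X₀ : ℕ, ∀ X : ℕ, X₀ ≤ X →
      (X : ℝ) / Real.log X ^ 455 ≤
        (({n : ℕ | 1 ≤ n ∧ n ≤ X ∧ 0 < (n : ℤ) ^ 2 + d ∧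
          (-1 : ℤ) ^ (ArithmeticFunction.cardFactors (((n : ℤ) ^ 2 + d).toNat)) = -1}.ncard : ℕ) :
            ℝ) := by
  intro d hd
  obtain ⟨X₀, h⟩ := main hd
  refine ⟨X₀, fun X hX => (h X hX).trans (le_of_eq ?_)⟩
  rw [← Set.ncard_coe_finset]
  congr 2
  ext n
  simp only [neg, lam, Finset.coe_filter, Finset.mem_Icc, Set.mem_ofPred_eq, and_assoc]
  refine and_congr_right fun _ => and_congr_right fun _ => and_congr_right fun h0 => ?_
  rw [show ((n : ℤ) ^ 2 + d).natAbs = ((n : ℤ) ^ 2 + d).toNat by omega]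

end Pool.Agent.Results.MP_192724_nt.PolylogDensity
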